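import Mathlib

set_option autoImplicit false

/-!
# The additivity number of `Split(Ω, Λ)` is at most `cf(𝔲)`

Every set of reals of size less than the ultrafilter number `𝔲` satisfies `Split(Ω, Λ)`, while a
base of size `𝔲` of a nonprincipal ultrafilter, seen as a set of reals, does not.  Writing such a
base as a union of `cf(𝔲)` many sets of size less than `𝔲` bounds the additivity number.
-/

open Set Topology

open Cardinal hiding univ

namespace Pool.Agent.Results.MP_312f56_gt.AddSplit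

/-- `𝒰` is an open `ω`-cover of the space `Z`: its members are open, their union is `Z`, the set `Z`
itself is not a member, and every finite subset of `Z` is contained in a member. -/
def IsOmegaCover {Z : Type} [TopologicalSpace Z] (𝒰 : Set (Set Z)) : Prop :=
  (∀ U ∈ 𝒰, IsOpen U) ∧ ⋃₀ 𝒰 = univ ∧ univ ∉ 𝒰 ∧ ∀ F : Set Z, F.Finite → ∃ U ∈ 𝒰, F ⊆ U

/-- `𝒰` is an open large cover of the space `Z`: its members are open, their union is `Z`, the set
`Z` itself is not a member, and every point of `Z` is in infinitely many members. -/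
def IsLargeCover {Z : Type} [TopologicalSpace Z] (𝒰 : Set (Set Z)) : Prop :=
  (∀ U ∈ 𝒰, IsOpen U) ∧ ⋃₀ 𝒰 = univ ∧ univ ∉ 𝒰 ∧ ∀ z : Z, {U | U ∈ 𝒰 ∧ z ∈ U}.Infinite

/-- `Split(Ω, Λ)`: every open `ω`-cover is the union of two disjoint subfamilies each of which
contains a subfamily that is an open large cover. -/
def SplitOL (Z : Type) [TopologicalSpace Z] : Prop :=
  ∀ 𝒰 : Set (Set Z), IsOmegaCover 𝒰 →
    ∃ 𝒱 𝒲 : Set (Set Z), 𝒱 ∪ 𝒲 = 𝒰 ∧ Disjoint 𝒱 𝒲 ∧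
      (∃ 𝒱' ⊆ 𝒱, IsLargeCover 𝒱') ∧ (∃ 𝒲' ⊆ 𝒲, IsLargeCover 𝒲')

/-- The family `𝒮` of all sets of reals which, with the subspace topology, satisfy
`Split(Ω, Λ)`. -/
def SS : Set (Set ℝ) := {X | SplitOL X}

/-- The additivity number `add(𝒮)`: the least cardinality of a subfamily of `𝒮` whose union is not
in `𝒮`. -/
noncomputable def addSS : Cardinal.{0} :=
  sInf {κ | ∃ ℱ : Set (Set ℝ), ℱ ⊆ SS ∧ ⋃₀ ℱ ∉ SS ∧ #ℱ = κ}

/-- `B` is a base of the ultrafilter `p`. -/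
def IsBaseOf (p : Ultrafilter ℕ) (B : Set (Set ℕ)) : Prop :=
  (∀ b ∈ B, b ∈ p) ∧ ∀ A ∈ p, ∃ b ∈ B, b ⊆ A

/-- The ultrafilter number `𝔲`: the least cardinality of a base of a nonprincipal ultrafilter
on `ℕ`. -/
noncomputable def uNumber : Cardinal.{0} :=
  sInf {κ | ∃ (p : Ultrafilter ℕ) (B : Set (Set ℕ)), (∀ n, {n}ᶜ ∈ p) ∧ IsBaseOf p B ∧ #B = κ}

/-! ### Sets of size less than `𝔲` -/

theorem exists_sdr {α : Type} (F : ℕ → Set α) (hF : ∀ m, (F m).Infinite) :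
    ∃ g : ℕ → α, Function.Injective g ∧ ∀ m, g m ∈ F m := by
  classical
  have key : ∀ (m : ℕ) (s : Finset α), ∃ a, a ∈ F m ∧ a ∉ s := by
    intro m s
    obtain ⟨a, ha, has⟩ := (hF m).exists_notMem_finset s
    exact ⟨a, ha, has⟩
  choose c hc1 hc2 using key
  let S : ℕ → Finset α := fun n => Nat.rec ∅ (fun m s => insert (c m s) s) n
  have hS : ∀ n, S (n + 1) = insert (c n (S n)) (S n) := fun n => rfl
  have hmono : Monotone S := monotone_nat_of_le_succ (fun n => by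
    rw [hS]; exact Finset.subset_insert _ _)
  refine ⟨fun n => c n (S n), ?_, fun m => hc1 _ _⟩
  have hlt : ∀ m n, m < n → c m (S m) ≠ c n (S n) := by
    intro m n hmn h
    have h1 : c m (S m) ∈ S n := by
      apply hmono (Nat.succ_le_of_lt hmn)
      change c m (S m) ∈ S (m + 1)
      rw [hS]
      exact Finset.mem_insert_self _ _
    exact hc2 n (S n) (h ▸ h1)
  intro m n h
  rcases lt_trichotomy m n with h1 | h1 | h1
  · exact absurd h (hlt m n h1)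
  · exact h1
  · exact absurd h.symm (hlt n m h1)

theorem infinite_of_mem {p : Ultrafilter ℕ} (hp : ∀ n, {n}ᶜ ∈ p) {A : Set ℕ} (hA : A ∈ p) :
    A.Infinite := by
  intro hfin
  have h1 : (⋂ n ∈ A, ({n}ᶜ : Set ℕ)) ∈ p := (Filter.biInter_mem hfin).2 fun n _ => hp n
  have h2 : A ∩ (⋂ n ∈ A, ({n}ᶜ : Set ℕ)) ∈ p := Filter.inter_mem hA h1
  obtain ⟨n, hn1, hn2⟩ := Ultrafilter.nonempty_of_mem h2
  have := mem_iInter₂.1 hn2 n hn1
  exact this rfl

theorem not_countable {p : Ultrafilter ℕ} {B : Set (Set ℕ)} (hp : ∀ n, {n}ᶜ ∈ p)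
    (hB : IsBaseOf p B) : ¬ B.Countable := by
  intro hc
  obtain ⟨b0, hb0, -⟩ := hB.2 univ Filter.univ_mem
  obtain ⟨b, hb⟩ := hc.exists_eq_range ⟨b0, hb0⟩
  have hbm : ∀ n, b n ∈ B := fun n => by rw [hb]; exact mem_range_self n
  obtain ⟨g, hg1, hg2⟩ := exists_sdr (fun m => b (m / 2))
    (fun m => infinite_of_mem hp (hB.1 _ (hbm _)))
  rcases p.mem_or_compl_mem (range fun m => g (2 * m)) with h | h
  · obtain ⟨c, hcB, hc⟩ := hB.2 _ h
    rw [hb] at hcB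
    obtain ⟨n, rfl⟩ := hcB
    have h1 : g (2 * n + 1) ∈ b n := by
      have := hg2 (2 * n + 1)
      rwa [show (2 * n + 1) / 2 = n by omega] at this
    obtain ⟨m, hm⟩ := hc h1
    have := hg1 hm
    omega
  · obtain ⟨c, hcB, hc⟩ := hB.2 _ h
    rw [hb] at hcB
    obtain ⟨n, rfl⟩ := hcB
    have h1 : g (2 * n) ∈ b n := by
      have := hg2 (2 * n)
      rwa [show (2 * n) / 2 = n by omega] at this
    exact hc h1 ⟨n, rfl⟩

theorem exists_nonprincipal : ∃ p : Ultrafilter ℕ, ∀ n, {n}ᶜ ∈ p := by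
  refine ⟨Filter.hyperfilter ℕ, fun n => ?_⟩
  exact Filter.compl_mem_hyperfilter_of_finite (finite_singleton n)

theorem uNumber_nonempty : {κ : Cardinal.{0} | ∃ (p : Ultrafilter ℕ) (B : Set (Set ℕ)),
    (∀ n, {n}ᶜ ∈ p) ∧ IsBaseOf p B ∧ #B = κ}.Nonempty := by
  obtain ⟨p, hp⟩ := exists_nonprincipal
  exact ⟨_, p, {A | A ∈ p}, hp, ⟨fun b hb => hb, fun A hA => ⟨A, hA, Subset.rfl⟩⟩, rfl⟩

theorem aleph0_lt_uNumber : ℵ₀ < uNumber := by
  obtain ⟨p, B, hp, hB, hBu⟩ := csInf_mem uNumber_nonempty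
  change #B = uNumber at hBu
  rw [← hBu]
  by_contra h
  exact not_countable hp hB (Cardinal.le_aleph0_iff_set_countable.1 (not_lt.1 h))

theorem uNumber_le_continuum : uNumber ≤ 𝔠 := by
  obtain ⟨p, B, hp, hB, hBu⟩ := csInf_mem uNumber_nonempty
  change #B = uNumber at hBu
  rw [← hBu]
  calc #B ≤ #(Set ℕ) := mk_set_le B
    _ = 𝔠 := by simp

theorem exists_countable_omega {Z : Type} [TopologicalSpace Z] [SecondCountableTopology Z]
    {𝒰 : Set (Set Z)} (hU : IsOmegaCover 𝒰) :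
    ∃ 𝒱 ⊆ 𝒰, 𝒱.Countable ∧ ∀ F : Set Z, F.Finite → ∃ U ∈ 𝒱, F ⊆ U := by
  classical
  have key : ∀ k : ℕ, ∃ T : Set 𝒰, T.Countable ∧
      (⋃ i ∈ T, {f : Fin k → Z | ∀ j, f j ∈ (i : Set Z)}) =
        ⋃ i : 𝒰, {f : Fin k → Z | ∀ j, f j ∈ (i : Set Z)} := by
    intro k
    apply TopologicalSpace.isOpen_iUnion_countable
    intro i
    have : {f : Fin k → Z | ∀ j, f j ∈ (i : Set Z)} = ⋂ j, (fun f : Fin k → Z => f j) ⁻¹' i := by
      ext f; simp
    rw [this]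
    exact isOpen_iInter_of_finite fun j => (hU.1 i i.2).preimage (continuous_apply j)
  choose T hTc hT using key
  refine ⟨⋃ k, Subtype.val '' T k, ?_, ?_, ?_⟩
  · intro U hU'
    obtain ⟨k, u, -, rfl⟩ := mem_iUnion.1 hU'
    exact u.2
  · exact countable_iUnion fun k => (hTc k).image _
  · intro F hF
    obtain ⟨k, f, -, rfl⟩ := hF.fin_param
    obtain ⟨U, hUU, hFU⟩ := hU.2.2.2 (range f) (finite_range f)
    have h1 : f ∈ ⋃ i : 𝒰, {f : Fin k → Z | ∀ j, f j ∈ (i : Set Z)} :=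
      mem_iUnion.2 ⟨⟨U, hUU⟩, fun j => hFU ⟨j, rfl⟩⟩
    rw [← hT k] at h1
    obtain ⟨i, hiT, hi⟩ := mem_iUnion₂.1 h1
    refine ⟨i, mem_iUnion.2 ⟨k, i, hiT, rfl⟩, ?_⟩
    rintro _ ⟨j, rfl⟩
    exact hi j

/-- Every second countable space of size less than `𝔲` satisfies `Split(Ω, Λ)`. -/
theorem split_of_small {Z : Type} [TopologicalSpace Z] [SecondCountableTopology Z]
    (hZ : #Z < uNumber) : SplitOL Z := by
  classical
  intro 𝒰 hU
  obtain ⟨𝒱, hVU, hVc, hVF⟩ := exists_countable_omega hU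
  have : Nonempty Z := by
    rcases isEmpty_or_nonempty Z with h | h
    · obtain ⟨V, hV, -⟩ := hU.2.2.2 ∅ finite_empty
      exact absurd (Subsingleton.elim V univ ▸ hV) hU.2.2.1
    · exact h
  have hne : ∀ U ∈ 𝒱, ∃ x, x ∉ U := by
    intro U hUV
    by_contra h
    push Not at h
    exact hU.2.2.1 ((eq_univ_of_forall h) ▸ hVU hUV)
  choose! w hw using hne
  have hinf : 𝒱.Infinite := by
    intro hfin
    obtain ⟨U, hUV, hsub⟩ := hVF (w '' 𝒱) (hfin.image w)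
    exact hw U hUV (hsub ⟨U, hUV, rfl⟩)
  have := hVc.to_subtype
  have := hinf.to_subtype
  obtain ⟨hden⟩ := nonempty_denumerable 𝒱
  let e : ℕ ≃ 𝒱 := (Denumerable.eqv 𝒱).symm
  let U : ℕ → Set Z := fun n => (e n : Set Z)
  have hUinj : Function.Injective U := fun m n h => e.injective (Subtype.ext h)
  have hUV : ∀ n, U n ∈ 𝒱 := fun n => (e n).2
  have hUF : ∀ F : Set Z, F.Finite → ∃ n, F ⊆ U n := by
    intro F hF
    obtain ⟨V, hV, hFV⟩ := hVF F hF
    refine ⟨e.symm ⟨V, hV⟩, ?_⟩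
    change F ⊆ ((e (e.symm ⟨V, hV⟩) : 𝒱) : Set Z)
    rwa [e.apply_symm_apply]
  have hUinf : ∀ F : Finset Z, {n | (F : Set Z) ⊆ U n}.Infinite := by
    intro F hfin
    obtain ⟨n, hn⟩ := hUF ((F : Set Z) ∪ (fun n => w (U n)) '' {n | (F : Set Z) ⊆ U n})
      (F.finite_toSet.union (hfin.image _))
    have h1 : n ∈ {n | (F : Set Z) ⊆ U n} := subset_union_left.trans hn
    exact hw (U n) (hUV n) (hn (Or.inr ⟨n, h1, rfl⟩))
  let Bf : Finset Z × ℕ → Set ℕ := fun a => {n | (a.1 : Set Z) ⊆ U n ∧ a.2 ≤ n}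
  have hBfne : ∀ a, (Bf a).Nonempty := by
    intro a
    obtain ⟨n, hn, hna⟩ := (hUinf a.1).exists_gt a.2
    exact ⟨n, hn, hna.le⟩
  have hA : ∃ A : Set ℕ, (∀ a, ¬ Bf a ⊆ A) ∧ ∀ a, ¬ Bf a ⊆ Aᶜ := by
    by_contra hcon
    push Not at hcon
    let f : Filter ℕ :=
      { sets := {A | ∃ a, Bf a ⊆ A}
        univ_sets := ⟨(∅, 0), subset_univ _⟩
        sets_of_superset := by
          rintro A B ⟨a, ha⟩ hAB
          exact ⟨a, ha.trans hAB⟩
        inter_sets := by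
          rintro A B ⟨a, ha⟩ ⟨b, hb⟩
          refine ⟨(a.1 ∪ b.1, max a.2 b.2), ?_⟩
          rintro n ⟨hn1, hn2⟩
          rw [Finset.coe_union, union_subset_iff] at hn1
          exact ⟨ha ⟨hn1.1, (le_max_left _ _).trans hn2⟩, hb ⟨hn1.2, (le_max_right _ _).trans hn2⟩⟩ }
    have hmem : ∀ A, A ∈ f ↔ ∃ a, Bf a ⊆ A := fun A => Iff.rfl
    have hult : ∀ s, sᶜ ∉ f ↔ s ∈ f := by
      intro s
      constructor
      · intro h
        by_contra h2
        obtain ⟨a, ha⟩ := hcon s (fun a ha => h2 ⟨a, ha⟩)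
        exact h ⟨a, ha⟩
      · rintro ⟨a, ha⟩ ⟨b, hb⟩
        obtain ⟨n, hn1, hn2⟩ := hBfne (a.1 ∪ b.1, max a.2 b.2)
        rw [Finset.coe_union, union_subset_iff] at hn1
        exact hb (show n ∈ Bf b from ⟨hn1.2, (le_max_right _ _).trans hn2⟩)
          (ha (show n ∈ Bf a from ⟨hn1.1, (le_max_left _ _).trans hn2⟩))
    let p : Ultrafilter ℕ := Ultrafilter.ofComplNotMemIff f hult
    have hp : ∀ A, A ∈ p ↔ ∃ a, Bf a ⊆ A := fun A => Iff.rfl
    have h1 : uNumber ≤ #(range Bf) := by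
      apply csInf_le (OrderBot.bddBelow _)
      refine ⟨p, range Bf, ?_, ⟨?_, ?_⟩, rfl⟩
      · intro n
        rw [hp]
        refine ⟨(∅, n + 1), ?_⟩
        rintro m ⟨-, hm⟩ (rfl : m = n)
        simp at hm
      · rintro _ ⟨a, rfl⟩
        exact (hp _).2 ⟨a, Subset.rfl⟩
      · intro A hA
        obtain ⟨a, ha⟩ := (hp _).1 hA
        exact ⟨_, ⟨a, rfl⟩, ha⟩
    have h2 : #(range Bf) < uNumber := by
      refine lt_of_le_of_lt mk_range_le ?_
      rw [mk_prod, lift_uzero, lift_uzero, mk_nat]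
      rcases lt_or_ge (#Z) ℵ₀ with hfin | hge
      · have : Finite Z := Cardinal.lt_aleph0_iff_finite.1 hfin
        have : Finite (Finset Z) := inferInstance
        have : #(Finset Z) ≤ ℵ₀ := (Cardinal.lt_aleph0_of_finite _).le
        exact lt_of_le_of_lt (mul_le_mul' this le_rfl) (by rw [aleph0_mul_aleph0]; exact aleph0_lt_uNumber)
      · have : Infinite Z := Cardinal.infinite_iff.2 hge
        rw [mk_finset_of_infinite, mul_aleph0_eq hge]
        exact hZ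
    exact absurd h1 (not_le.2 h2)
  obtain ⟨A, hA1, hA2⟩ := hA
  have inf : ∀ A : Set ℕ, (∀ a, ¬ Bf a ⊆ Aᶜ) → ∀ z, {n | n ∈ A ∧ z ∈ U n}.Infinite := by
    intro A hA z hfin
    obtain ⟨k, hk⟩ := hfin.bddAbove
    apply hA ({z}, k + 1)
    rintro n ⟨hn1, hn2⟩ hnA
    have h3 : n ≤ k := hk ⟨hnA, hn1 (by simp)⟩
    change k + 1 ≤ n at hn2
    omega
  have large : ∀ A : Set ℕ, (∀ a, ¬ Bf a ⊆ Aᶜ) → IsLargeCover (U '' A) := by
    intro A hA
    refine ⟨?_, ?_, ?_, ?_⟩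
    · rintro _ ⟨n, -, rfl⟩
      exact hU.1 _ (hVU (hUV n))
    · rw [eq_univ_iff_forall]
      intro z
      obtain ⟨n, hn1, hn2⟩ := (inf A hA z).nonempty
      exact ⟨U n, ⟨n, hn1, rfl⟩, hn2⟩
    · rintro ⟨n, -, hn⟩
      exact hU.2.2.1 (hn ▸ hVU (hUV n))
    · intro z
      refine ((inf A hA z).image hUinj.injOn).mono ?_
      rintro _ ⟨n, ⟨hn1, hn2⟩, rfl⟩
      exact ⟨⟨n, hn1, rfl⟩, hn2⟩
  refine ⟨U '' A, 𝒰 \ (U '' A), ?_, disjoint_sdiff_right, ⟨U '' A, Subset.rfl, large A hA2⟩,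
    ⟨U '' Aᶜ, ?_, large Aᶜ (by simpa using hA1)⟩⟩
  · rw [union_sdiff_self]
    apply union_eq_self_of_subset_left
    rintro _ ⟨n, -, rfl⟩
    exact hVU (hUV n)
  · rintro _ ⟨n, hn, rfl⟩
    refine ⟨hVU (hUV n), ?_⟩
    rintro ⟨m, hm, hmn⟩
    exact hn (hUinj hmn ▸ hm)

/-! ### An ultrafilter base is not in `𝒮` -/

/-- the Cantor space as a subspace of the line -/
noncomputable def emb : (ℕ → Bool) → ℝ := fun x => (cantorSetHomeomorphNatToBool.symm x : ℝ)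

theorem isEmbedding_emb : IsEmbedding emb :=
  IsEmbedding.subtypeVal.comp cantorSetHomeomorphNatToBool.symm.isEmbedding

open Classical in
/-- the indicator function of a set of natural numbers -/
noncomputable def ind (A : Set ℕ) : ℕ → Bool := fun n => decide (n ∈ A)

theorem ind_injective : Function.Injective ind := by
  intro A B h
  ext n
  have := congrFun h n
  simpa [ind] using this

/-- a family of sets of natural numbers as a set of reals -/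
noncomputable def real (B : Set (Set ℕ)) : Set ℝ := (fun b => emb (ind b)) '' B

theorem mk_real (B : Set (Set ℕ)) : #(real B) = #B :=
  mk_image_eq (isEmbedding_emb.injective.comp ind_injective)

theorem real_not_mem {p : Ultrafilter ℕ} {B : Set (Set ℕ)} (hp : ∀ n, {n}ᶜ ∈ p)
    (hB : IsBaseOf p B) : real B ∉ SS := by
  intro hS
  have hreal : real B = emb '' (ind '' B) := by rw [image_image]; rfl
  let h : (ind '' B : Set (ℕ → Bool)) ≃ₜ (emb '' (ind '' B) : Set ℝ) :=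
    isEmbedding_emb.homeomorphImage (ind '' B)
  change SplitOL (real B) at hS
  rw [hreal] at hS
  let O : ℕ → Set (emb '' (ind '' B) : Set ℝ) := fun n => {x | (h.symm x).1 n = true}
  have hO : ∀ n, IsOpen (O n) := by
    intro n
    have : O n = (fun x => (h.symm x).1 n) ⁻¹' {true} := by ext x; simp [O]
    rw [this]
    refine (isOpen_discrete _).preimage ?_
    exact (continuous_apply n).comp (continuous_subtype_val.comp h.symm.continuous)
  -- points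
  have hpt : ∀ x, ∃ b ∈ B, ∀ n, x ∈ O n ↔ n ∈ b := by
    intro x
    obtain ⟨b, hb, hbx⟩ := (h.symm x).2
    refine ⟨b, hb, fun n => ?_⟩
    change (h.symm x).1 n = true ↔ _
    rw [← hbx]
    simp [ind]
  have hpt' : ∀ b ∈ B, ∃ x, ∀ n, x ∈ O n ↔ n ∈ b := by
    intro b hb
    refine ⟨h ⟨ind b, mem_image_of_mem _ hb⟩, fun n => ?_⟩
    change (h.symm (h ⟨ind b, mem_image_of_mem _ hb⟩)).1 n = true ↔ _
    rw [h.symm_apply_apply]
    simp [ind]
  have hcov : IsOmegaCover (range O) := by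
    have hfin : ∀ F : Set (emb '' (ind '' B) : Set ℝ), F.Finite → ∃ U ∈ range O, F ⊆ U := by
      intro F hF
      choose b hb hbO using hpt
      have h1 : (⋂ x ∈ F, b x) ∈ p := (Filter.biInter_mem hF).2 fun x _ => hB.1 _ (hb x)
      obtain ⟨n, hn⟩ := Ultrafilter.nonempty_of_mem h1
      exact ⟨O n, ⟨n, rfl⟩, fun x hx => (hbO x n).2 (mem_iInter₂.1 hn x hx)⟩
    refine ⟨?_, ?_, ?_, hfin⟩
    · rintro _ ⟨n, rfl⟩
      exact hO n
    · rw [eq_univ_iff_forall]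
      intro x
      obtain ⟨U, hU, hx⟩ := hfin {x} (finite_singleton x)
      exact ⟨U, hU, hx rfl⟩
    · rintro ⟨n, hn⟩
      obtain ⟨b, hb, hbn⟩ := hB.2 _ (hp n)
      obtain ⟨x, hx⟩ := hpt' b hb
      have : x ∈ O n := hn ▸ mem_univ x
      exact hbn ((hx n).1 this) rfl
  obtain ⟨𝒱, 𝒲, hVW, hdis, ⟨𝒱', hV'V, hV'⟩, ⟨𝒲', hW'W, hW'⟩⟩ := hS _ hcov
  rcases p.mem_or_compl_mem {n | O n ∈ 𝒱} with hA | hA
  · obtain ⟨b, hb, hbA⟩ := hB.2 _ hA
    obtain ⟨x, hx⟩ := hpt' b hb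
    obtain ⟨W, hW, hxW⟩ := (hW'.2.2.2 x).nonempty
    obtain ⟨n, rfl⟩ : W ∈ range O := hVW ▸ Or.inr (hW'W hW)
    exact disjoint_left.1 hdis (hbA ((hx n).1 hxW)) (hW'W hW)
  · obtain ⟨b, hb, hbA⟩ := hB.2 _ hA
    obtain ⟨x, hx⟩ := hpt' b hb
    obtain ⟨V, hV, hxV⟩ := (hV'.2.2.2 x).nonempty
    obtain ⟨n, rfl⟩ : V ∈ range O := hVW ▸ Or.inl (hV'V hV)
    exact hbA ((hx n).1 hxV) (hV'V hV)

theorem small_mem {X : Set ℝ} (hX : #X < uNumber) : X ∈ SS :=
  split_of_small hX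

theorem exists_family : ∃ ℱ : Set (Set ℝ), ℱ ⊆ SS ∧ ⋃₀ ℱ ∉ SS ∧ #ℱ ≤ uNumber.ord.cof := by
  obtain ⟨p, B, hp, hB, hBu⟩ := csInf_mem uNumber_nonempty
  change #B = uNumber at hBu
  have hBu' : #B = #uNumber.ord.ToType := by rw [hBu, mk_ord_toType]
  obtain ⟨f⟩ := Cardinal.eq.1 hBu'
  obtain ⟨s, hs, hscard⟩ := Order.exists_cof_eq uNumber.ord.ToType
  rw [Ordinal.cof_toType] at hscard
  let P : uNumber.ord.ToType → Set (Set ℕ) := fun a => {b | ∃ hb : b ∈ B, f ⟨b, hb⟩ ≤ a}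
  refine ⟨(fun a => real (P a)) '' s, ?_, ?_, ?_⟩
  · rintro _ ⟨a, -, rfl⟩
    apply small_mem
    rw [mk_real]
    have h1 : #(P a) ≤ #(Iic a) := by
      refine Cardinal.mk_le_of_injective
        (f := fun b : P a => (⟨f ⟨b.1, b.2.choose⟩, b.2.choose_spec⟩ : Iic a)) ?_
      intro b c h
      have h2 : f ⟨b.1, b.2.choose⟩ = f ⟨c.1, c.2.choose⟩ := congrArg Subtype.val h
      have h3 := congrArg Subtype.val (f.injective h2)
      exact Subtype.ext h3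
    refine lt_of_le_of_lt h1 ?_
    have h2 : (Iic a : Set uNumber.ord.ToType) = insert a (Iio a) := by
      ext x; simp [le_iff_eq_or_lt]
    rw [h2]
    refine lt_of_le_of_lt (mk_insert_le) ?_
    have h3 : #(Iio a) < uNumber := by
      have := Cardinal.mk_Iio_lt a (by simp)
      rwa [mk_ord_toType] at this
    exact Cardinal.add_lt_of_lt aleph0_lt_uNumber.le h3
      (one_lt_aleph0.trans aleph0_lt_uNumber)
  · have : ⋃₀ ((fun a => real (P a)) '' s) = real B := by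
      ext x
      constructor
      · rintro ⟨_, ⟨a, -, rfl⟩, b, ⟨hb, -⟩, rfl⟩
        exact ⟨b, hb, rfl⟩
      · rintro ⟨b, hb, rfl⟩
        obtain ⟨a, ha, hba⟩ := hs (f ⟨b, hb⟩)
        exact ⟨_, ⟨a, ha, rfl⟩, b, ⟨hb, hba⟩, rfl⟩
    rw [this]
    exact real_not_mem hp hB
  · rw [← hscard]
    exact mk_image_le

/-- **`add(𝒮) ≤ cf(𝔲)`** for the family `𝒮` of all sets of reals with `Split(Ω, Λ)`.  More
precisely: all sets of reals of size less than `𝔲` belong to `𝒮`, some set of reals of size `𝔲`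
does not, there are at most `cf(𝔲)` members of `𝒮` whose union is not in `𝒮`, so the minimum
defining `add(𝒮)` is attained and is at most `cf(𝔲)`, which is at most `𝔲`. -/
theorem result :
    (∀ X : Set ℝ, #X < uNumber → X ∈ SS) ∧
    (∃ X : Set ℝ, #X = uNumber ∧ X ∉ SS) ∧
    (∃ ℱ : Set (Set ℝ), ℱ ⊆ SS ∧ ⋃₀ ℱ ∉ SS ∧ #ℱ = addSS) ∧
    addSS ≤ uNumber.ord.cof ∧ uNumber.ord.cof ≤ uNumber ∧ ℵ₀ < uNumber ∧ uNumber ≤ 𝔠 := by
  obtain ⟨ℱ, h1, h2, h3⟩ := exists_family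
  have h4 : addSS ≤ #ℱ := csInf_le (OrderBot.bddBelow _) ⟨ℱ, h1, h2, rfl⟩
  refine ⟨fun X hX => small_mem hX, ?_, ?_, h4.trans h3,
    Ordinal.cof_ord_le _, aleph0_lt_uNumber, uNumber_le_continuum⟩
  · obtain ⟨p, B, hp, hB, hBu⟩ := csInf_mem uNumber_nonempty
    exact ⟨real B, (mk_real B).trans hBu, real_not_mem hp hB⟩
  · have hne : {κ : Cardinal.{0} | ∃ ℱ : Set (Set ℝ), ℱ ⊆ SS ∧ ⋃₀ ℱ ∉ SS ∧ #ℱ = κ}.Nonempty :=
      ⟨_, ℱ, h1, h2, rfl⟩
    exact csInf_mem hne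

end Pool.Agent.Results.MP_312f56_gt.AddSplit
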